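import Mathlib
import Pool.Agent.V11179.PsiBasic
import Pool.Agent.V11179.PsiMain

/-!
# Principal symmetric ideals whose square is principal symmetric

The question of MP_e01960_al is whether every principal symmetric ideal `I` whose square is again
a principal symmetric ideal is generated by the orbit of a polynomial that is `k`-invariant under
some symmetric subgroup. The answer is no: in seven variables, over every field of
characteristic different from 2, 3 and 7 in which -14 is a square (for example the complex
numbers), there is a counterexample.

The ideal is generated by the degree `n` space spanned by an alternating polynomial `a` and the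
polynomials `s1 * y_i`, `s2 * y_i`, where `s1`, `s2` are symmetric and `y_1, ..., y_7` are
homogeneous covariants with `∑ y_i = 0` and `∑ y_i ^ 2 = 0`. Such covariants exist since the
trace form of the generic polynomial of degree seven, restricted to trace zero, becomes
isotropic over an extension of odd degree 105, hence is isotropic by the odd degree theorem of
Springer.
-/

namespace Pool.Agent.Results.MP_e01960_al.Disproof

open Pool.Agent.V11179.Psi

theorem result :
    (∀ (k : Type) [Field k], (2 : k) ≠ 0 → (3 : k) ≠ 0 → (7 : k) ≠ 0 → IsSquare (-14 : k) →
      ∃ I : Ideal (MvPolynomial (Fin 7) k), IsPsi I ∧ IsPsi (I ^ 2) ∧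
        ¬ HasInvariantGenerator I) ∧
    ¬ (∀ (k : Type) [Field k] (d : ℕ), 2 ≤ d →
      ∀ I : Ideal (MvPolynomial (Fin d) k), IsPsi I → IsPsi (I ^ 2) →
        HasInvariantGenerator I) := by
  refine ⟨fun k _ h2 h3 h7 hsq => counterexample k h2 h3 h7 hsq, ?_⟩
  intro h
  obtain ⟨I, h1, h2, h3⟩ := counterexample ℂ (by norm_num) (by norm_num) (by norm_num)
    (IsAlgClosed.exists_eq_mul_self _)
  exact h3 (h ℂ 7 (by norm_num) I h1 h2)

end Pool.Agent.Results.MP_e01960_al.Disproof
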